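import Pool.Agent.W_4481e3_q87.GoR
import Pool.Agent.W_4481e3_tab.T6

/-!
Tree s11o6, data 11.
-/

namespace Pool.Agent.W_4481e3_rt.s11o6

open Pool.Agent.W_4481e3_q25.EvR

theorem k227 : ckO Pool.Agent.W_4481e3_tab.T6.tab 132160 222080 67108864 1048576 1482752 2097152 12 1572864 524288 1572864 524288 511768002 526007869 3795435 3690783 268412835 268438998 16777216 16777216 2118124 2118124 0x102000c02000c02000c03000c21203000c03000c04000c03000c0501cc21203000c03000c03000c2103050c03000c04000c21050a1c0501cc05000c0501cc2106000c21204000c04000c040a0c204050c060e1c21204000c03050c04050c2106000c06000c06000c212106000c06000c106000c206000c06000c07000c2106000c06000c207000c07000c2121829417a3577212121 = true := by decide +kernel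

theorem k231 : ckO Pool.Agent.W_4481e3_tab.T6.tab 132160 222080 67108864 1048576 1482752 2097152 5 1572864 524288 1572864 524288 515354132 515354132 7172260 7172260 268435456 268435456 16777216 16777216 2118124 2118124 0x102000c02000c02000c1202000c02000c03000c202000c03000c2121 = true := by decide +kernel

theorem k234 : ckO Pool.Agent.W_4481e3_tab.T6.tab 132160 222080 67108864 1048576 1482752 2097152 5 1572864 524288 1572864 524288 522526392 493837352 14344520 14344520 268435456 268435456 16777216 16777216 2118124 2118124 0x100000c00013c00005c01050c21200013c0100bc01003c121 = true := by decide +kernel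

theorem k236 : ckO Pool.Agent.W_4481e3_tab.T6.tab 132160 222080 67108864 1048576 1482752 2097152 8 1572864 524288 1572864 524288 493837352 508181872 14344520 28689040 268435456 268435456 16777216 16777216 2118124 2118124 0x100000c00000c00013c00005c00013c02000c100013c02014c04000c2121212 = true := by decide +kernel

end Pool.Agent.W_4481e3_rt.s11o6
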